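import Pool.Agent.helper32.Billiard.Defs

/-!
# The annular table `1/2 ≤ |z| ≤ 1`
-/

set_option autoImplicit false

open Set Filter Topology MeasureTheory Complex

namespace Pool.Agent.helper32.Billiard

/-- radii -/
noncomputable def R : Fin 2 → ℝ := ![1, 1/2]

/-- angular speeds -/
noncomputable def κ : Fin 2 → ℝ := ![1, -2]

lemma R_zero : R 0 = 1 := rfl
lemma R_one : R 1 = 1/2 := rfl
lemma κ_zero : κ 0 = 1 := rfl
lemma κ_one : κ 1 = -2 := rfl

lemma R_pos (i : Fin 2) : 0 < R i := by
  fin_cases i <;> simp [R]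

/-- boundary circles -/
noncomputable def γA (i : Fin 2) (s : ℝ) : ℂ := R i * exp (κ i * s * I)

lemma norm_γA (i : Fin 2) (s : ℝ) : ‖γA i s‖ = R i := by
  rw [γA, norm_mul, Complex.norm_real, Real.norm_of_nonneg (R_pos i).le]
  rw [show (κ i * s * I : ℂ) = ((κ i * s : ℝ) : ℂ) * I by push_cast; ring,
    Complex.norm_exp_ofReal_mul_I, mul_one]

lemma hasDerivAt_γA (i : Fin 2) (s : ℝ) : HasDerivAt (γA i) (κ i * I * γA i s) s := by
  have h1 : HasDerivAt (fun s : ℝ => (κ i * s * I : ℂ)) (κ i * I) s := by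
    have := ((Complex.ofRealCLM.hasDerivAt (x := s)).const_mul (κ i : ℂ)).mul_const I
    simpa using this
  have h2 := (h1.cexp).const_mul (R i : ℂ)
  refine h2.congr_deriv ?_
  simp only [γA]; ring

lemma deriv_γA (i : Fin 2) (s : ℝ) : deriv (γA i) s = κ i * I * γA i s :=
  (hasDerivAt_γA i s).deriv

lemma contDiff_γA (i : Fin 2) : ContDiff ℝ 3 (γA i) := by
  unfold γA
  have h : ContDiff ℝ 3 (fun s : ℝ => (s : ℂ)) := Complex.ofRealCLM.contDiff
  fun_prop

/-- the region -/
def QA : Set ℂ := {z | 1/2 ≤ ‖z‖ ∧ ‖z‖ ≤ 1}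

lemma QA_eq : QA = Metric.closedBall 0 1 ∩ (Metric.ball 0 (1/2))ᶜ := by
  ext z; simp [QA, and_comm]

lemma interior_QA : interior QA = {z | 1/2 < ‖z‖ ∧ ‖z‖ < 1} := by
  rw [QA_eq, interior_inter, interior_compl, interior_closedBall _ one_ne_zero,
    closure_ball _ (by norm_num)]
  ext z; simp [and_comm]

lemma isClosed_QA : IsClosed QA := by
  rw [QA_eq]
  exact Metric.isClosed_closedBall.inter Metric.isOpen_ball.isClosed_compl

lemma isCompact_QA : IsCompact QA := by
  rw [QA_eq]
  exact (isCompact_closedBall 0 1).inter_right Metric.isOpen_ball.isClosed_compl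

lemma isConnected_interior_QA : IsConnected (interior QA) := by
  have : interior QA = (fun p : ℝ × ℝ => (p.1 * exp (p.2 * I) : ℂ)) '' (Ioo (1/2) 1 ×ˢ univ) := by
    rw [interior_QA]
    ext z
    constructor
    · intro hz
      refine ⟨(‖z‖, arg z), ⟨hz, trivial⟩, Complex.norm_mul_exp_arg_mul_I z⟩
    · rintro ⟨⟨r, θ⟩, ⟨hr, -⟩, rfl⟩
      have hr0 : 0 ≤ r := by linarith [hr.1]
      simp only [mem_ofPred_eq, norm_mul, Complex.norm_real, Real.norm_of_nonneg hr0,
        Complex.norm_exp_ofReal_mul_I, mul_one]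
      exact hr
  rw [this]
  apply IsConnected.image
  · exact (isConnected_Ioo (by norm_num)).prod isConnected_univ
  · fun_prop

lemma closure_interior_QA : closure (interior QA) = QA := by
  apply subset_antisymm
  · exact closure_minimal interior_subset isClosed_QA
  · intro z hz
    rw [Metric.mem_closure_iff]
    intro ε hε
    have hz0 : (0:ℝ) < ‖z‖ := by linarith [hz.1]
    -- move a little towards the circle of radius `3/4`
    set t : ℝ := min (ε / 2) (1/2) with ht
    have ht0 : 0 < t := by positivity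
    have ht1 : t ≤ 1/2 := min_le_right _ _
    set r : ℝ := ‖z‖ + t * (3/4 - ‖z‖) with hr
    refine ⟨((r / ‖z‖ : ℝ) : ℂ) * z, ?_, ?_⟩
    · rw [interior_QA]
      have hr0 : 0 ≤ r := by nlinarith [hz.1, hz.2]
      have : ‖((r / ‖z‖ : ℝ) : ℂ) * z‖ = r := by
        rw [norm_mul, Complex.norm_real, Real.norm_of_nonneg (by positivity)]
        field_simp
      simp only [mem_ofPred_eq, this]
      constructor <;> nlinarith [hz.1, hz.2]
    · rw [dist_eq_norm]
      have : z - ((r / ‖z‖ : ℝ) : ℂ) * z = ((1 - r / ‖z‖ : ℝ) : ℂ) * z := by push_cast; ring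
      rw [this, norm_mul, Complex.norm_real, Real.norm_eq_abs]
      have h2 : |1 - r / ‖z‖| * ‖z‖ = |t * (3/4 - ‖z‖)| := by
        have h5 : (1 - r / ‖z‖) * ‖z‖ = -(t * (3/4 - ‖z‖)) := by
          rw [sub_mul, div_mul_cancel₀ _ hz0.ne', hr]; ring
        calc |1 - r / ‖z‖| * ‖z‖ = |1 - r / ‖z‖| * |‖z‖| := by rw [abs_of_pos hz0]
          _ = |(1 - r / ‖z‖) * ‖z‖| := (abs_mul _ _).symm
          _ = _ := by rw [h5, abs_neg]
      rw [h2, abs_mul, abs_of_pos ht0]
      have h3 : |3/4 - ‖z‖| ≤ 1 := by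
        rw [abs_le]; constructor <;> linarith [hz.1, hz.2]
      have : t ≤ ε / 2 := min_le_left _ _
      nlinarith [abs_nonneg (3/4 - ‖z‖)]

lemma exists_γA (i : Fin 2) (z : ℂ) (hz : ‖z‖ = R i) : ∃ s ∈ Ico 0 (2 * Real.pi * R i), γA i s = z := by
  have hπ := Real.pi_pos
  have hz' : z = R i * exp (arg z * I) := by
    conv_lhs => rw [← Complex.norm_mul_exp_arg_mul_I z]
    rw [hz]
  have key : ∀ θ : ℝ, ∃ θ' ∈ Ico 0 (2 * Real.pi), exp (θ' * I) = exp (θ * I) := by
    intro θ
    refine ⟨toIcoMod (by positivity : (0:ℝ) < 2 * Real.pi) 0 θ, by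
      simpa using toIcoMod_mem_Ico (by positivity : (0:ℝ) < 2 * Real.pi) 0 θ, ?_⟩
    rw [toIcoMod]
    push_cast
    rw [sub_mul, Complex.exp_sub]
    have : exp ((toIcoDiv (by positivity : (0:ℝ) < 2 * Real.pi) 0 θ • (2 * Real.pi) : ℂ) * I) = 1 := by
      rw [Complex.exp_eq_one_iff]
      exact ⟨toIcoDiv (by positivity : (0:ℝ) < 2 * Real.pi) 0 θ, by simp; ring⟩
    rw [this, div_one]
  fin_cases i
  · obtain ⟨θ', h1, h2⟩ := key (arg z)
    refine ⟨θ', by simpa [R] using h1, ?_⟩
    rw [hz', ← h2]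
    simp [γA, R, κ]
  · obtain ⟨θ', h1, h2⟩ := key (-arg z)
    refine ⟨θ' / 2, ?_, ?_⟩
    · simp only [R, mem_Ico]
      simp
      constructor <;> linarith [h1.1, h1.2]
    · have h3 : exp (-(θ' * I)) = exp (arg z * I) := by
        rw [Complex.exp_neg, h2, ← Complex.exp_neg]
        congr 1
        push_cast; ring
      rw [hz', ← h3]
      simp only [γA, R, κ]
      congr 2
      simp
      ring

lemma γA_period (i : Fin 2) (s : ℝ) : γA i (s + 2 * Real.pi * R i) = γA i s := by
  have : exp ((κ i : ℂ) * (2 * Real.pi * R i) * I) = 1 := by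
    rw [Complex.exp_eq_one_iff]
    fin_cases i
    · exact ⟨1, by simp [κ, R]⟩
    · exact ⟨-1, by simp [κ, R]; ring⟩
  simp only [γA]
  push_cast
  rw [mul_add, add_mul, Complex.exp_add, this, mul_one]

lemma image_γA (i : Fin 2) : γA i '' Icc 0 (2 * Real.pi * R i) = {z | ‖z‖ = R i} := by
  apply subset_antisymm
  · rintro _ ⟨s, -, rfl⟩; exact norm_γA i s
  · intro z hz
    obtain ⟨s, hs, h⟩ := exists_γA i z hz
    exact ⟨s, Ico_subset_Icc_self hs, h⟩

lemma abs_κ (i : Fin 2) : R i * |κ i| = 1 := by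
  fin_cases i <;> simp [R, κ]

lemma γA_inj (i : Fin 2) {s t : ℝ} (h : γA i s = γA i t) (hst : |s - t| < 2 * Real.pi * R i) :
    s = t := by
  have hR := R_pos i
  have h1 : exp (κ i * s * I) = exp (κ i * t * I) := by
    have : (R i : ℂ) ≠ 0 := by exact_mod_cast hR.ne'
    exact mul_left_cancel₀ this h
  rw [Complex.exp_eq_exp_iff_exists_int] at h1
  obtain ⟨n, hn⟩ := h1
  have h2 : κ i * s = κ i * t + n * (2 * Real.pi) := by
    have h3 : ((κ i * s : ℝ) : ℂ) * I = ((κ i * t + n * (2 * Real.pi) : ℝ) : ℂ) * I := by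
      push_cast
      rw [hn]; ring
    have h4 := mul_right_cancel₀ I_ne_zero h3
    exact_mod_cast h4
  have h5 : |κ i| * |s - t| = |(n : ℝ)| * (2 * Real.pi) := by
    rw [← abs_mul, show κ i * (s - t) = n * (2 * Real.pi) by linarith, abs_mul,
      abs_of_pos (by positivity : (0:ℝ) < 2 * Real.pi)]
  have h6 : |s - t| = |(n : ℝ)| * (2 * Real.pi * R i) := by
    have := abs_κ i
    calc |s - t| = (R i * |κ i|) * |s - t| := by rw [this, one_mul]
      _ = R i * (|κ i| * |s - t|) := by ring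
      _ = _ := by rw [h5]; ring
  have h7 : |(n : ℝ)| < 1 := by
    by_contra hcon
    push Not at hcon
    have : 2 * Real.pi * R i ≤ |s - t| := by
      rw [h6]
      have : 0 < 2 * Real.pi * R i := by positivity
      nlinarith
    linarith
  have h8 : n = 0 := by
    have : |n| < 1 := by exact_mod_cast h7
    exact Int.abs_lt_one_iff.mp this
  rw [h8] at h6
  simp at h6
  linarith

/-- The annular table. -/
noncomputable def annulus : Table where
  Q := QA
  isCompact_Q := isCompact_QA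
  isConnected_interior := isConnected_interior_QA
  closure_interior := closure_interior_QA
  n := 2
  len i := 2 * Real.pi * R i
  len_pos i := by have := R_pos i; positivity
  IsClosedCurve _ := True
  γ := γA
  contDiff_γ := contDiff_γA
  norm_deriv_γ i s _ := by
    rw [deriv_γA, norm_mul, norm_mul, norm_γA, Complex.norm_I, mul_one, Complex.norm_real,
      Real.norm_eq_abs, mul_comm, abs_κ]
  periodic_γ i _ s := γA_period i s
  injOn_γ i := by
    have hR := R_pos i
    constructor
    · intro s hs t ht h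
      apply γA_inj i h
      rw [abs_lt]; constructor <;> linarith [hs.1, hs.2, ht.1, ht.2]
    · intro s hs t ht h
      apply γA_inj i h
      rw [abs_lt]; constructor <;> linarith [hs.1, hs.2, ht.1, ht.2]
  frontier_Q := by
    rw [frontier, isClosed_QA.closure_eq, interior_QA]
    ext z
    simp only [image_γA, Set.mem_sdiff, mem_iUnion, mem_ofPred_eq, QA, Fin.exists_fin_two, R_zero, R_one]
    constructor
    · rintro ⟨⟨h1, h2⟩, h3⟩
      by_cases h4 : 1/2 < ‖z‖
      · left
        by_contra h5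
        exact h3 ⟨h4, lt_of_le_of_ne h2 h5⟩
      · right
        linarith
    · rintro (h | h) <;> rw [h] <;> norm_num
  meet_γ i j hij s _ t _ h := by
    exfalso
    have h1 : R i = R j := by rw [← norm_γA i s, h, norm_γA]
    revert hij h1
    fin_cases i <;> fin_cases j <;> simp [R]
  corner_γ i h := (h trivial).elim
  left_γ i s _ _ := by
    have hR := R_pos i
    have : ∀ᶠ ε : ℝ in 𝓝[>] 0, ε ∈ Ioo (0:ℝ) (1/4) := Ioo_mem_nhdsGT (by norm_num)
    filter_upwards [this] with ε hε
    rw [interior_QA, deriv_γA]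
    have h1 : γA i s + (ε : ℂ) * (I * (κ i * I * γA i s)) = ((1 - ε * κ i : ℝ) : ℂ) * γA i s := by
      push_cast
      linear_combination (ε * κ i * γA i s : ℂ) * I_mul_I
    rw [h1, mem_ofPred_eq, norm_mul, norm_γA, Complex.norm_real, Real.norm_eq_abs]
    obtain ⟨h2, h3⟩ := hε
    fin_cases i
    · simp only [κ_zero, R_zero, Fin.zero_eta, Fin.isValue]
      rw [abs_of_pos (by linarith)]
      constructor <;> linarith
    · simp only [κ_one, R_one, Fin.mk_one, Fin.isValue]
      rw [abs_of_pos (by linarith)]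
      constructor <;> linarith

end Pool.Agent.helper32.Billiard
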