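import Mathlib

/-!
# Choice of angles
-/

set_option autoImplicit false

open Set Filter Topology Complex

namespace Pool.Agent.helper32.Billiard

/-- the outer angle corresponding to an inner angle `ψ` -/
noncomputable def φof (ψ : ℝ) : ℝ := Real.arcsin (Real.sin ψ / 2)

lemma sin_φof (ψ : ℝ) : Real.sin (φof ψ) = Real.sin ψ / 2 := by
  rw [φof, Real.sin_arcsin]
  · linarith [Real.neg_one_le_sin ψ]
  · linarith [Real.sin_le_one ψ]

lemma φof_mem (ψ : ℝ) : φof ψ ∈ Ioo (-(Real.pi / 2)) (Real.pi / 2) := by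
  constructor
  · exact Real.neg_pi_div_two_lt_arcsin.mpr (by linarith [Real.neg_one_le_sin ψ])
  · exact Real.arcsin_lt_pi_div_two.mpr (by linarith [Real.sin_le_one ψ])

lemma φof_pos {ψ : ℝ} (h : ψ ∈ Ioo 0 (Real.pi / 2)) : 0 < φof ψ := by
  apply Real.arcsin_pos.mpr
  have := Real.sin_pos_of_pos_of_lt_pi h.1 (by linarith [h.2, Real.pi_pos])
  linarith

lemma φof_lt {ψ : ℝ} (h : ψ ∈ Ioo 0 (Real.pi / 2)) : φof ψ < ψ := by
  have h1 := φof_mem ψ
  have h2 := Real.sin_pos_of_pos_of_lt_pi h.1 (by linarith [h.2, Real.pi_pos])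
  by_contra hcon
  push Not at hcon
  have h3 : Real.sin ψ ≤ Real.sin (φof ψ) :=
    Real.sin_le_sin_of_le_of_le_pi_div_two (by linarith [h.1, Real.pi_pos]) h1.2.le hcon
  rw [sin_φof] at h3
  linarith

lemma δ_injOn : InjOn (fun ψ => ψ - φof ψ) (Ioo 0 (Real.pi / 2)) := by
  have key : ∀ a b : ℝ, a ∈ Ioo 0 (Real.pi / 2) → b ∈ Ioo 0 (Real.pi / 2) → a < b →
      a - φof a = b - φof b → False := by
    intro a b ha hb hab h
    have hπ := Real.pi_pos
    set d := b - a with hd
    have hd0 : 0 < d := by rw [hd]; linarith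
    have hd2 : φof b - φof a = d := by rw [hd]; linarith
    have e1 : Real.sin (φof b) - Real.sin (φof a)
        = 2 * Real.sin (d / 2) * Real.cos ((φof b + φof a) / 2) := by
      rw [Real.sin_sub_sin, hd2]
    have e2 : Real.sin b - Real.sin a = 2 * Real.sin (d / 2) * Real.cos ((b + a) / 2) := by
      rw [Real.sin_sub_sin]
    have e3 : Real.sin (φof b) - Real.sin (φof a) = (Real.sin b - Real.sin a) / 2 := by
      rw [sin_φof, sin_φof]; ring
    have hs : 0 < Real.sin (d / 2) :=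
      Real.sin_pos_of_pos_of_lt_pi (by linarith) (by linarith [ha.1, hb.2])
    have e4 : Real.cos ((φof b + φof a) / 2) = Real.cos ((b + a) / 2) / 2 := by
      have : 2 * Real.sin (d / 2) * Real.cos ((φof b + φof a) / 2) =
          2 * Real.sin (d / 2) * (Real.cos ((b + a) / 2) / 2) := by
        rw [← e1, e3, e2]; ring
      exact mul_left_cancel₀ (by positivity) this
    have e5 : Real.cos ((b + a) / 2) < Real.cos ((φof b + φof a) / 2) := by
      apply Real.cos_lt_cos_of_nonneg_of_le_pi_div_two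
      · linarith [φof_pos ha, φof_pos hb]
      · linarith [ha.2, hb.2]
      · linarith [φof_lt ha, φof_lt hb]
    have e6 : 0 < Real.cos ((b + a) / 2) :=
      Real.cos_pos_of_mem_Ioo ⟨by linarith [ha.1, hb.1], by linarith [ha.2, hb.2]⟩
    linarith
  intro a ha b hb h
  rcases lt_trichotomy a b with hlt | heq | hgt
  · exact (key a b ha hb hlt h).elim
  · exact heq
  · exact (key b a hb ha hgt h.symm).elim

lemma countable_bad : {x : ℝ | ∃ n : ℕ, 0 < n ∧ exp (x * I) ^ n = 1}.Countable := by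
  have : {x : ℝ | ∃ n : ℕ, 0 < n ∧ exp (x * I) ^ n = 1} ⊆
      range (fun p : ℕ × ℤ => (p.2 * (2 * Real.pi) / p.1 : ℝ)) := by
    rintro x ⟨n, hn, hx⟩
    rw [← Complex.exp_nat_mul, Complex.exp_eq_one_iff] at hx
    obtain ⟨m, hm⟩ := hx
    refine ⟨(n, m), ?_⟩
    have hn0 : (n : ℝ) ≠ 0 := by positivity
    have h1 : (n : ℝ) * x = m * (2 * Real.pi) := by
      have h2 : ((n * x : ℝ) : ℂ) * I = ((m * (2 * Real.pi) : ℝ) : ℂ) * I := by
        push_cast
        linear_combination hm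
      exact_mod_cast mul_right_cancel₀ I_ne_zero h2
    simp only
    rw [← h1]
    field_simp
  exact (countable_range _).mono this

/-- Existence of good angles. -/
lemma exists_angle (ε : ℝ) (hε : 0 < ε) : ∃ ψ ∈ Ioo 0 (Real.pi / 2), Real.cos ψ < ε ∧
    ∀ n : ℕ, 0 < n → exp ((ψ - φof ψ : ℝ) * I) ^ n ≠ 1 := by
  have hπ := Real.pi_pos
  by_contra hcon
  push Not at hcon
  -- an interval of bad angles
  set a : ℝ := max 0 (Real.pi / 2 - ε) with ha
  have ha2 : a < Real.pi / 2 := by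
    rw [ha]; exact max_lt (by positivity) (by linarith)
  have hbad : ∀ ψ ∈ Ioo a (Real.pi / 2), ψ - φof ψ ∈ {x : ℝ | ∃ n : ℕ, 0 < n ∧ exp (x * I) ^ n = 1} := by
    intro ψ hψ
    have h0 : 0 ≤ a := le_max_left _ _
    have h1 : Real.pi / 2 - ε ≤ a := le_max_right _ _
    have hm : ψ ∈ Ioo 0 (Real.pi / 2) := ⟨by linarith [hψ.1], hψ.2⟩
    have hc : Real.cos ψ < ε := by
      rw [← Real.sin_pi_div_two_sub]
      have := Real.sin_lt (x := Real.pi / 2 - ψ) (by linarith [hψ.2])
      linarith [hψ.1]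
    obtain ⟨n, hn, h⟩ := hcon ψ hm hc
    exact ⟨n, hn, h⟩
  have hcount : (Ioo a (Real.pi / 2)).Countable := by
    refine MapsTo.countable_of_injOn hbad ?_ countable_bad
    exact δ_injOn.mono (Ioo_subset_Ioo_left (le_max_left _ _))
  have hz := hcount.measure_zero MeasureTheory.volume
  rw [Real.volume_Ioo] at hz
  simp at hz
  linarith

end Pool.Agent.helper32.Billiard
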