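import Mathlib

/-!
# Planar billiard tables and their billiard maps

The plane is `ℂ`, with its Euclidean norm. These are the definitions used by the hand-in
`MP_94eb8e_an`.
-/

set_option autoImplicit false

open Set Filter Topology MeasureTheory Complex

namespace Pool.Agent.helper32.Billiard

/-- A billiard table: a compact set `Q` of the plane, the closure of its connected interior, whose
boundary is a finite union of `C³` curves `γ i`, parametrised by arclength on `[0, len i]`, simple,
and meeting each other only at end points.  A curve is either *closed* (a `C³` closed curve, then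
`γ i` is periodic of period `len i`) or an arc, whose end points are corners; at every corner
exactly one arc ends and exactly one arc begins.  The curves are oriented so that the table is on
their left, i.e. `I * γ'` is the inward unit normal. -/
structure Table where
  /-- the region -/
  Q : Set ℂ
  isCompact_Q : IsCompact Q
  isConnected_interior : IsConnected (interior Q)
  closure_interior : closure (interior Q) = Q
  /-- number of boundary curves -/
  n : ℕ
  /-- lengths of the boundary curves -/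
  len : Fin n → ℝ
  len_pos : ∀ i, 0 < len i
  /-- which of the boundary curves are smooth closed curves -/
  IsClosedCurve : Fin n → Prop
  /-- arclength parametrisations of the boundary curves -/
  γ : Fin n → ℝ → ℂ
  contDiff_γ : ∀ i, ContDiff ℝ 3 (γ i)
  norm_deriv_γ : ∀ i, ∀ s ∈ Icc 0 (len i), ‖deriv (γ i) s‖ = 1
  periodic_γ : ∀ i, IsClosedCurve i → Function.Periodic (γ i) (len i)
  injOn_γ : ∀ i, InjOn (γ i) (Ico 0 (len i)) ∧ InjOn (γ i) (Ioc 0 (len i))
  frontier_Q : frontier Q = ⋃ i, γ i '' Icc 0 (len i)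
  meet_γ : ∀ i j, i ≠ j → ∀ s ∈ Icc 0 (len i), ∀ t ∈ Icc 0 (len j), γ i s = γ j t →
    (¬ IsClosedCurve i ∧ (s = 0 ∨ s = len i)) ∧ (¬ IsClosedCurve j ∧ (t = 0 ∨ t = len j))
  corner_γ : ∀ i, ¬ IsClosedCurve i →
    (∃! j, ¬ IsClosedCurve j ∧ γ j 0 = γ i (len i)) ∧
    (∃! j, ¬ IsClosedCurve j ∧ γ j (len j) = γ i 0)
  left_γ : ∀ i, ∀ s ∈ Icc 0 (len i), (IsClosedCurve i ∨ s ∈ Ioo 0 (len i)) →
    ∀ᶠ ε : ℝ in 𝓝[>] 0, γ i s + (ε : ℂ) * (I * deriv (γ i) s) ∈ interior Q

namespace Table

variable (B : Table)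

/-- The table has no cusps: at every corner, the arc that ends there and the arc that begins there
do not have opposite tangent directions, that is, the interior angle is neither `0` nor `2π`. -/
def NoCusps : Prop :=
  ∀ i j, ¬ B.IsClosedCurve i → ¬ B.IsClosedCurve j → B.γ i (B.len i) = B.γ j 0 →
    deriv (B.γ j) 0 ≠ -deriv (B.γ i) (B.len i)

/-- The coordinates `(r, φ)` of the phase space over the boundary curve `i`: the base point is
`γ i r` and the unit vector makes the angle `φ` with the inward normal `I * γ'`. -/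
noncomputable def chart (i : Fin B.n) (a : ℝ × ℝ) : ℂ × ℂ :=
  (B.γ i a.1, (Real.cos a.2 * I + Real.sin a.2) * deriv (B.γ i) a.1)

/-- The phase space: base points on the boundary, unit vectors pointing into the table. -/
def M : Set (ℂ × ℂ) :=
  {x | ∃ i, ∃ s ∈ Icc 0 (B.len i), ∃ φ ∈ Icc (-(Real.pi / 2)) (Real.pi / 2),
    B.chart i (s, φ) = x}

open Classical in
/-- The unit tangent vector at a boundary point. -/
noncomputable def tangent (p : ℂ) : ℂ :=
  if h : ∃ a : Fin B.n × ℝ, a.2 ∈ Icc 0 (B.len a.1) ∧ B.γ a.1 a.2 = p then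
    deriv (B.γ h.choose.1) h.choose.2 else 0

/-- Elastic reflection at the boundary point `p`: reflection of the velocity in the tangent
line, `v ↦ t² * conj v` where `t` is a unit tangent vector. -/
noncomputable def reflect (p v : ℂ) : ℂ := B.tangent p ^ 2 * (starRingEnd ℂ) v

/-- The time of the next collision. -/
noncomputable def nextTime (x : ℂ × ℂ) : ℝ :=
  sInf {t : ℝ | 0 < t ∧ x.1 + t * x.2 ∈ frontier B.Q}

/-- The base point of the next collision. -/
noncomputable def nextPoint (x : ℂ × ℂ) : ℂ := x.1 + B.nextTime x * x.2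

/-- The billiard map. -/
noncomputable def T (x : ℂ × ℂ) : ℂ × ℂ :=
  (B.nextPoint x, B.reflect (B.nextPoint x) x.2)

/-- Time reversal `(r, φ) ↦ (r, -φ)`: the outgoing vector is replaced by minus the incoming one. -/
noncomputable def rev (x : ℂ × ℂ) : ℂ × ℂ := (x.1, -B.reflect x.1 x.2)

/-- The inverse billiard map (conjugate of the billiard map by time reversal). -/
noncomputable def Tinv (x : ℂ × ℂ) : ℂ × ℂ := B.rev (B.T (B.rev x))

/-- Corners of the table. -/
def IsCorner (p : ℂ) : Prop :=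
  ∃ i, ¬ B.IsClosedCurve i ∧ (p = B.γ i 0 ∨ p = B.γ i (B.len i))

/-- Tangential vectors, and vectors whose next collision is at a corner. -/
def S₀ : Set (ℂ × ℂ) :=
  {x | (∃ i, ∃ s ∈ Icc 0 (B.len i), ∃ φ, (φ = Real.pi / 2 ∨ φ = -(Real.pi / 2)) ∧
    B.chart i (s, φ) = x) ∨ B.IsCorner (B.nextPoint x)}

/-- The singular set: `S₀` and the corresponding set for the inverse map. -/
def S : Set (ℂ × ℂ) := {x | x ∈ B.S₀ ∨ B.rev x ∈ B.S₀}

/-- `A` is the derivative of `f` (the map `T` or its inverse) at `x` in the coordinates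
`(r, φ)`. -/
def HasCoordDeriv (f : ℂ × ℂ → ℂ × ℂ) (x : ℂ × ℂ) (A : (ℝ × ℝ) →L[ℝ] (ℝ × ℝ)) : Prop :=
  ∃ (i j : Fin B.n) (a : ℝ × ℝ) (F : ℝ × ℝ → ℝ × ℝ),
    B.chart i a = x ∧
    (B.IsClosedCurve i ∨ a.1 ∈ Ioo 0 (B.len i)) ∧ a.2 ∈ Ioo (-(Real.pi / 2)) (Real.pi / 2) ∧
    (B.IsClosedCurve j ∨ (F a).1 ∈ Ioo 0 (B.len j)) ∧
    (F a).2 ∈ Ioo (-(Real.pi / 2)) (Real.pi / 2) ∧
    (∀ᶠ b in 𝓝 a, f (B.chart i b) = B.chart j (F b)) ∧ HasFDerivAt F A a

open Classical in
/-- The derivative in the coordinates `(r, φ)` (and `0` where it does not exist). -/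
noncomputable def coordDeriv (f : ℂ × ℂ → ℂ × ℂ) (x : ℂ × ℂ) : (ℝ × ℝ) →L[ℝ] (ℝ × ℝ) :=
  if h : ∃ A, B.HasCoordDeriv f x A then h.choose else 0

/-- `μ` is an invariant probability measure of the billiard map: a Borel probability measure
carried by the phase space, preserved by `T`, almost every point of which has an entire orbit
that avoids the singular set. -/
structure IsInvariantProbability (μ : Measure (ℂ × ℂ)) : Prop where
  isProbabilityMeasure : IsProbabilityMeasure μ
  ae_mem : ∀ᵐ x ∂μ, x ∈ B.M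
  aemeasurable : AEMeasurable B.T μ
  map_eq : μ.map B.T = μ
  ae_orbit : ∀ᵐ x ∂μ, ∃ o : ℤ → ℂ × ℂ, o 0 = x ∧
    ∀ k, B.T (o k) = o (k + 1) ∧ o k ∈ B.M ∧ o k ∉ B.S

/-- `μ` gives zero mass to the set of periodic points. -/
def IsNonPeriodic (μ : Measure (ℂ × ℂ)) : Prop :=
  μ {x | ∃ k : ℕ, 0 < k ∧ B.T^[k] x = x} = 0

/-- The Oseledets integrability condition: `log⁺ ‖DT‖` and `log⁺ ‖DT⁻¹‖` are integrable. -/
def OseledetsIntegrable (μ : Measure (ℂ × ℂ)) : Prop :=
  ∫⁻ x, ENNReal.ofReal (Real.posLog ‖B.coordDeriv B.T x‖) ∂μ < ⊤ ∧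
  ∫⁻ x, ENNReal.ofReal (Real.posLog ‖B.coordDeriv B.Tinv x‖) ∂μ < ⊤

end Table

end Pool.Agent.helper32.Billiard
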