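import Pool.Agent.helper32.Billiard.Orbit

/-!
# Singular set and derivative for the annular table
-/

set_option autoImplicit false

open Set Filter Topology MeasureTheory Complex

namespace Pool.Agent.helper32.Billiard

lemma γA_zero (s : ℝ) : γA 0 s = exp (s * I) := by simp [γA, R, κ]

lemma γA_one (s : ℝ) : γA 1 s = exp (-(2 * s * I)) / 2 := by
  simp [γA, R, κ]; ring

lemma exp_cos_sin {a b : ℝ} (h : exp (-(a * I)) = exp (-(b * I))) :
    Real.cos a = Real.cos b ∧ Real.sin a = Real.sin b := by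
  have e : ∀ a : ℝ, exp (-(a * I)) = Real.cos a - Real.sin a * I := by
    intro a
    rw [show (-(a * I) : ℂ) = ((-a : ℝ) : ℂ) * I by push_cast; ring, exp_mul_I,
      ← Complex.ofReal_cos, ← Complex.ofReal_sin, Real.cos_neg, Real.sin_neg]
    push_cast; ring
  rw [e, e] at h
  constructor
  · have := congrArg Complex.re h
    simpa [-Complex.ofReal_cos, -Complex.ofReal_sin] using this
  · have := congrArg Complex.im h
    simpa [-Complex.ofReal_cos, -Complex.ofReal_sin] using this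

lemma c0_inj {φ φ' : ℝ} {z z' : ℂ} (hz : ‖z‖ = 1) (h : c0 φ z = c0 φ' z') :
    z = z' ∧ Real.cos φ = Real.cos φ' ∧ Real.sin φ = Real.sin φ' := by
  have h1 : z = z' := congrArg Prod.fst h
  have h2 : -exp (-(φ * I)) * z = -exp (-(φ' * I)) * z' := congrArg Prod.snd h
  rw [← h1] at h2
  have hz0 : z ≠ 0 := by
    intro h0; rw [h0, norm_zero] at hz; exact zero_ne_one hz
  have h3 := mul_right_cancel₀ hz0 h2
  exact ⟨h1, exp_cos_sin (neg_injective h3)⟩

lemma c1_inj {φ φ' : ℝ} {z z' : ℂ} (hz : ‖z‖ = 1) (h : c1 φ z = c1 φ' z') :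
    z = z' ∧ Real.cos φ = Real.cos φ' ∧ Real.sin φ = Real.sin φ' := by
  have h0 : z / 2 = z' / 2 := congrArg Prod.fst h
  have h1 : z = z' := by
    have := congrArg (fun x => x * 2) h0
    simpa using this
  have h2 : exp (-(φ * I)) * z = exp (-(φ' * I)) * z' := congrArg Prod.snd h
  rw [← h1] at h2
  have hz0 : z ≠ 0 := by
    intro h0; rw [h0, norm_zero] at hz; exact zero_ne_one hz
  have h3 := mul_right_cancel₀ hz0 h2
  exact ⟨h1, exp_cos_sin h3⟩

lemma c0_ne_c1 {φ χ : ℝ} {z w : ℂ} (hz : ‖z‖ = 1) (hw : ‖w‖ = 1) : c0 φ z ≠ c1 χ w := by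
  intro h
  have h1 : z = w / 2 := congrArg Prod.fst h
  have h2 : ‖z‖ = ‖w‖ / 2 := by rw [h1, norm_div]; norm_num
  rw [hz, hw] at h2
  norm_num at h2

lemma norm_e2 (s : ℝ) : ‖exp (-(2 * s * I))‖ = 1 := by
  rw [show (-(2 * s * I) : ℂ) = ((-(2 * s) : ℝ) : ℂ) * I by push_cast; ring, norm_exp_I]

lemma fin_annulus (i : Fin annulus.n) : i = (0 : Fin 2) ∨ i = (1 : Fin 2) := by
  have : ∀ i : Fin 2, i = 0 ∨ i = 1 := by decide
  exact this i

lemma not_isCorner (p : ℂ) : ¬ annulus.IsCorner p := by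
  rintro ⟨i, h, -⟩
  exact h trivial

lemma c0_notMem_S₀ {φ : ℝ} {z : ℂ} (hz : ‖z‖ = 1) (hφ : 0 < Real.cos φ) :
    c0 φ z ∉ annulus.S₀ := by
  rintro (⟨i, s, hs, θ, hθ, h⟩ | h)
  · have hc : Real.cos θ = 0 := by
      rcases hθ with rfl | rfl
      · exact Real.cos_pi_div_two
      · rw [Real.cos_neg, Real.cos_pi_div_two]
    rcases fin_annulus i with rfl | rfl
    · rw [chart_zero] at h
      have := (c0_inj (norm_exp_I s) h).2.1
      simp only at this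
      linarith
    · rw [chart_one] at h
      exact c0_ne_c1 hz (norm_e2 s) h.symm
  · exact not_isCorner _ h

lemma c1_notMem_S₀ {χ : ℝ} {w : ℂ} (hw : ‖w‖ = 1) (hχ : 0 < Real.cos χ) :
    c1 χ w ∉ annulus.S₀ := by
  rintro (⟨i, s, hs, θ, hθ, h⟩ | h)
  · have hc : Real.cos θ = 0 := by
      rcases hθ with rfl | rfl
      · exact Real.cos_pi_div_two
      · rw [Real.cos_neg, Real.cos_pi_div_two]
    rcases fin_annulus i with rfl | rfl
    · rw [chart_zero] at h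
      exact c0_ne_c1 (norm_exp_I s) hw h
    · rw [chart_one] at h
      have := (c1_inj (norm_e2 s) h).2.1
      simp only at this
      linarith
  · exact not_isCorner _ h

lemma rev_c0 (φ : ℝ) (z : ℂ) (hz : ‖z‖ = 1) : annulus.rev (c0 φ z) = c0 (-φ) z := by
  have hzz : z * (starRingEnd ℂ) z = 1 := by
    rw [Complex.mul_conj, Complex.normSq_eq_norm_sq, hz]; norm_num
  have hce : (starRingEnd ℂ) (exp (-(φ * I))) = exp (φ * I) := by
    rw [← Complex.exp_conj]; simp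
  rw [Table.rev]
  simp only [c0]
  rw [reflect_eq _ _ (Or.inl hz), hz, map_mul, map_neg, hce]
  ext1
  · rfl
  · simp only
    rw [show (-(((-φ : ℝ) : ℂ) * I)) = φ * I by push_cast; ring]
    push_cast
    linear_combination (-z * exp (φ * I) : ℂ) * hzz

lemma rev_c1 (χ : ℝ) (w : ℂ) (hw : ‖w‖ = 1) : annulus.rev (c1 χ w) = c1 (-χ) w := by
  have hww : w * (starRingEnd ℂ) w = 1 := by
    rw [Complex.mul_conj, Complex.normSq_eq_norm_sq, hw]; norm_num
  have hce : (starRingEnd ℂ) (exp (-(χ * I))) = exp (χ * I) := by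
    rw [← Complex.exp_conj]; simp
  have hnw : ‖w / 2‖ = 1/2 := by rw [norm_div, hw]; norm_num
  rw [Table.rev]
  simp only [c1]
  rw [reflect_eq _ _ (Or.inr hnw), hnw, map_mul, hce]
  ext1
  · rfl
  · simp only
    rw [show (-(((-χ : ℝ) : ℂ) * I)) = χ * I by push_cast; ring]
    push_cast
    linear_combination (w * exp (χ * I) : ℂ) * hww

lemma c0_notMem_S {φ : ℝ} {z : ℂ} (hz : ‖z‖ = 1) (hφ : 0 < Real.cos φ) :
    c0 φ z ∉ annulus.S := by
  rintro (h | h)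
  · exact c0_notMem_S₀ hz hφ h
  · rw [rev_c0 φ z hz] at h
    exact c0_notMem_S₀ hz (by rwa [Real.cos_neg]) h

lemma c1_notMem_S {φ : ℝ} {z : ℂ} (hz : ‖z‖ = 1) (hφ : 0 < Real.cos φ) :
    c1 φ z ∉ annulus.S := by
  rintro (h | h)
  · exact c1_notMem_S₀ hz hφ h
  · rw [rev_c1 φ z hz] at h
    exact c1_notMem_S₀ hz (by rwa [Real.cos_neg]) h

lemma c0_mem_M {φ : ℝ} {z : ℂ} (hz : ‖z‖ = 1) (hφ : φ ∈ Icc (-(Real.pi / 2)) (Real.pi / 2)) :
    c0 φ z ∈ annulus.M := by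
  obtain ⟨s, hs, h⟩ := exists_γA 0 z (by rw [hz, R_zero])
  refine ⟨(0 : Fin 2), s, Ico_subset_Icc_self hs, φ, hφ, ?_⟩
  rw [chart_zero, ← h, γA_zero]

lemma c1_mem_M {φ : ℝ} {z : ℂ} (hz : ‖z‖ = 1) (hφ : φ ∈ Icc (-(Real.pi / 2)) (Real.pi / 2)) :
    c1 φ z ∈ annulus.M := by
  obtain ⟨s, hs, h⟩ := exists_γA 1 (z / 2) (by rw [norm_div, hz, R_one]; norm_num)
  refine ⟨(1 : Fin 2), s, Ico_subset_Icc_self hs, φ, hφ, ?_⟩
  rw [chart_one]
  rw [γA_one] at h
  have : exp (-(2 * (s : ℂ) * I)) = z := by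
    have := congrArg (fun x => x * 2) h
    simpa using this
  simp only [this]

/-- The angle at the inner circle. -/
noncomputable def ψof (φ : ℝ) : ℝ := Real.arcsin (2 * Real.sin φ)

/-- Common form of `T` and its inverse on vectors at the outer circle (`σ = ±1`). -/
def GoodMap (σ : ℝ) (f : ℂ × ℂ → ℂ × ℂ) : Prop :=
  ∀ (φ : ℝ) (z : ℂ), ‖z‖ = 1 → 0 < Real.cos φ → |2 * Real.sin φ| < 1 →
    f (c0 φ z) = c1 (-ψof φ) (z * exp ((σ * (ψof φ - φ) : ℝ) * I))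

lemma cos_ψof_pos {φ : ℝ} (h : |2 * Real.sin φ| < 1) : 0 < Real.cos (ψof φ) := by
  rw [ψof, Real.cos_arcsin]
  apply Real.sqrt_pos.mpr
  have := (sq_lt_one_iff_abs_lt_one (2 * Real.sin φ)).mpr h
  linarith

lemma sin_ψof {φ : ℝ} (h : |2 * Real.sin φ| < 1) : Real.sin (ψof φ) = 2 * Real.sin φ := by
  rw [ψof, Real.sin_arcsin (by linarith [(abs_lt.mp h).1]) (by linarith [(abs_lt.mp h).2])]

lemma goodMap_T : GoodMap 1 annulus.T := by
  intro φ z hz hφ h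
  rw [T_c0 φ (ψof φ) z hz hφ (cos_ψof_pos h) (by rw [sin_ψof h]; ring), one_mul]

lemma goodMap_Tinv : GoodMap (-1) annulus.Tinv := by
  intro φ z hz hφ h
  have h' : |2 * Real.sin (-φ)| < 1 := by rw [Real.sin_neg, mul_neg, abs_neg]; exact h
  have h3 : ψof (-φ) = -ψof φ := by rw [ψof, Real.sin_neg, mul_neg, Real.arcsin_neg, ψof]
  rw [Table.Tinv, rev_c0 φ z hz, goodMap_T (-φ) z hz (by rwa [Real.cos_neg]) h',
    rev_c1 _ _ (by rw [norm_mul, hz, norm_exp_I, one_mul]), h3]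
  rw [show (1 * (-ψof φ - -φ) : ℝ) = -1 * (ψof φ - φ) by ring, neg_neg]

lemma exists_hasCoordDeriv {σ : ℝ} {f : ℂ × ℂ → ℂ × ℂ} (hf : GoodMap σ f) {φ : ℝ} {z : ℂ}
    (hz : ‖z‖ = 1) (hφ : φ ∈ Ioo (-(Real.pi / 2)) (Real.pi / 2)) (h : |2 * Real.sin φ| < 1) :
    ∃ A, annulus.HasCoordDeriv f (c0 φ z) A := by
  obtain ⟨s, hs, hsz⟩ := exists_γA 0 z (by rw [hz, R_zero])
  have hn1 : (2 * Real.sin φ) ≠ -1 := by linarith [(abs_lt.mp h).1] |> fun h => ne_of_gt h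
  have hn2 : (2 * Real.sin φ) ≠ 1 := by linarith [(abs_lt.mp h).2] |> fun h => ne_of_lt h
  let F : ℝ × ℝ → ℝ × ℝ := fun b => (-(1/2) * (b.1 + σ * (ψof b.2 - b.2)), -ψof b.2)
  have hdiff : DifferentiableAt ℝ F (s, φ) := by
    have h1 : DifferentiableAt ℝ (fun b : ℝ × ℝ => ψof b.2) (s, φ) := by
      have h2 : DifferentiableAt ℝ Real.arcsin (2 * Real.sin ((s, φ) : ℝ × ℝ).2) :=
        Real.differentiableAt_arcsin.mpr ⟨hn1, hn2⟩
      have h3 : DifferentiableAt ℝ (fun b : ℝ × ℝ => 2 * Real.sin b.2) (s, φ) := by fun_prop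
      exact DifferentiableAt.comp (g := Real.arcsin) (f := fun b : ℝ × ℝ => 2 * Real.sin b.2)
        (s, φ) h2 h3
    apply DifferentiableAt.prodMk
    · fun_prop
    · fun_prop
  have hcφ : 0 < Real.cos φ := Real.cos_pos_of_mem_Ioo hφ
  refine ⟨fderiv ℝ F (s, φ), (0 : Fin 2), (1 : Fin 2), (s, φ), F, ?_, Or.inl trivial, hφ,
    Or.inl trivial, ?_, ?_, hdiff.hasFDerivAt⟩
  · rw [chart_zero, ← hsz, γA_zero]
  · have h4 := (Real.arcsin_lt_pi_div_two (x := 2 * Real.sin φ)).mpr (abs_lt.mp h).2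
    have h5 := (Real.neg_pi_div_two_lt_arcsin (x := 2 * Real.sin φ)).mpr (abs_lt.mp h).1
    simp only [F, ψof]
    constructor <;> linarith
  · have o1 : ∀ᶠ b : ℝ × ℝ in 𝓝 (s, φ), 0 < Real.cos b.2 := by
      have : ContinuousAt (fun b : ℝ × ℝ => Real.cos b.2) (s, φ) := by fun_prop
      exact this.eventually (lt_mem_nhds hcφ)
    have o2 : ∀ᶠ b : ℝ × ℝ in 𝓝 (s, φ), |2 * Real.sin b.2| < 1 := by
      have : ContinuousAt (fun b : ℝ × ℝ => |2 * Real.sin b.2|) (s, φ) := by fun_prop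
      exact this.eventually (gt_mem_nhds h)
    filter_upwards [o1, o2] with b hb1 hb2
    rw [chart_zero, hf b.2 _ (norm_exp_I _) hb1 hb2, chart_one]
    simp only [F]
    rw [← Complex.exp_add]
    congr 2
    push_cast; ring

lemma le_norm_of_hasCoordDeriv {σ : ℝ} {f : ℂ × ℂ → ℂ × ℂ} (hf : GoodMap σ f) {φ : ℝ} {z : ℂ}
    (hz : ‖z‖ = 1) (hφ : 0 < Real.cos φ) (h : |2 * Real.sin φ| < 1)
    {A : (ℝ × ℝ) →L[ℝ] (ℝ × ℝ)} (hA : annulus.HasCoordDeriv f (c0 φ z) A) :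
    2 * Real.cos φ / Real.cos (ψof φ) ≤ ‖A‖ := by
  obtain ⟨i, j, a, F, hia, -, ha2, -, hF2, hev, hder⟩ := hA
  -- the chart is the outer one
  have hi : i = (0 : Fin 2) := by
    rcases fin_annulus i with rfl | rfl
    · rfl
    · rw [chart_one] at hia
      exact (c0_ne_c1 hz (norm_e2 _) hia.symm).elim
  subst hi
  rw [chart_zero] at hia
  obtain ⟨-, hcos, hsin⟩ := c0_inj (norm_exp_I a.1) hia
  have h' : |2 * Real.sin a.2| < 1 := by rw [hsin]; exact h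
  have hcφ' : 0 < Real.cos a.2 := by rw [hcos]; exact hφ
  have o1 : ∀ᶠ b : ℝ × ℝ in 𝓝 a, 0 < Real.cos b.2 := by
    have : ContinuousAt (fun b : ℝ × ℝ => Real.cos b.2) a := by fun_prop
    exact this.eventually (lt_mem_nhds hcφ')
  have o2 : ∀ᶠ b : ℝ × ℝ in 𝓝 a, |2 * Real.sin b.2| < 1 := by
    have : ContinuousAt (fun b : ℝ × ℝ => |2 * Real.sin b.2|) a := by fun_prop
    exact this.eventually (gt_mem_nhds h')
  have hnn : ∀ b : ℝ × ℝ, ‖exp (b.1 * I) * exp ((σ * (ψof b.2 - b.2) : ℝ) * I)‖ = 1 := by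
    intro b; rw [norm_mul, norm_exp_I, norm_exp_I, one_mul]
  have hev' : ∀ᶠ b in 𝓝 a, c1 (-ψof b.2) (exp (b.1 * I) * exp ((σ * (ψof b.2 - b.2) : ℝ) * I)) =
      annulus.chart j (F b) := by
    filter_upwards [hev, o1, o2] with b hb hb1 hb2
    rw [← hb, chart_zero, hf b.2 _ (norm_exp_I _) hb1 hb2]
  have hj : j = (1 : Fin 2) := by
    rcases fin_annulus j with rfl | rfl
    · have := hev'.self_of_nhds
      rw [chart_zero] at this
      exact (c0_ne_c1 (norm_exp_I _) (hnn a) this.symm).elim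
    · rfl
  subst hj
  have hs : ∀ᶠ b in 𝓝 a, Real.sin (F b).2 = -(2 * Real.sin b.2) := by
    filter_upwards [hev', o2] with b hb hb2
    rw [chart_one] at hb
    obtain ⟨-, -, h3⟩ := c1_inj (hnn b) hb
    rw [← h3, Real.sin_neg, sin_ψof hb2]
  have hc : Real.cos (F a).2 = Real.cos (ψof φ) := by
    have := hev'.self_of_nhds
    rw [chart_one] at this
    obtain ⟨-, h3, -⟩ := c1_inj (hnn a) this
    rw [← h3, Real.cos_neg, ψof, ψof, hsin]
  -- differentiate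
  have hd1 : HasFDerivAt (fun b => Real.sin (F b).2)
      (Real.cos (F a).2 • ((ContinuousLinearMap.snd ℝ ℝ ℝ).comp A)) a := by
    have h1 : HasFDerivAt (fun b => (F b).2) ((ContinuousLinearMap.snd ℝ ℝ ℝ).comp A) a :=
      (ContinuousLinearMap.snd ℝ ℝ ℝ).hasFDerivAt.comp a hder
    exact h1.sin
  have hd2 : HasFDerivAt (fun b : ℝ × ℝ => -(2 * Real.sin b.2))
      (-((2 : ℝ) • (Real.cos a.2 • (ContinuousLinearMap.snd ℝ ℝ ℝ)))) a := by
    have h1 : HasFDerivAt (fun b : ℝ × ℝ => b.2) (ContinuousLinearMap.snd ℝ ℝ ℝ) a :=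
      (ContinuousLinearMap.snd ℝ ℝ ℝ).hasFDerivAt
    have h2 := (h1.sin.const_mul 2).neg
    exact h2
  have hd3 := hd2.congr_of_eventuallyEq hs
  have heq := hd1.unique hd3
  have heq2 := congrArg (fun L : (ℝ × ℝ) →L[ℝ] ℝ => L (0, 1)) heq
  simp at heq2
  rw [hc, hcos] at heq2
  have hcψ := cos_ψof_pos h
  have h7 : |(A (0, 1)).2| = 2 * Real.cos φ / Real.cos (ψof φ) := by
    have : (A (0, 1)).2 = -(2 * Real.cos φ) / Real.cos (ψof φ) := by
      field_simp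
      linarith
    rw [this, abs_div, abs_neg, abs_of_pos (by positivity), abs_of_pos hcψ]
  rw [← h7]
  calc |(A (0, 1)).2| ≤ ‖A (0, 1)‖ := by
        rw [← Real.norm_eq_abs]; exact norm_snd_le (A (0, 1))
    _ ≤ ‖A‖ * ‖((0, 1) : ℝ × ℝ)‖ := A.le_opNorm _
    _ = ‖A‖ := by simp [Prod.norm_def]

/-- The derivative in coordinates is large when the trajectory is nearly tangent to the inner
circle. -/
lemma le_norm_coordDeriv {σ : ℝ} {f : ℂ × ℂ → ℂ × ℂ} (hf : GoodMap σ f) {φ : ℝ} {z : ℂ}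
    (hz : ‖z‖ = 1) (hφ : φ ∈ Ioo (-(Real.pi / 2)) (Real.pi / 2)) (h : |2 * Real.sin φ| < 1) :
    1 / Real.cos (ψof φ) ≤ ‖annulus.coordDeriv f (c0 φ z)‖ := by
  have hex := exists_hasCoordDeriv hf hz hφ h
  have hcφ : 0 < Real.cos φ := Real.cos_pos_of_mem_Ioo hφ
  have h1 := le_norm_of_hasCoordDeriv hf hz hcφ h hex.choose_spec
  rw [Table.coordDeriv, dif_pos hex]
  refine le_trans ?_ h1
  have hcψ := cos_ψof_pos h
  have h2 : 1 ≤ 2 * Real.cos φ := by
    have h3 := Real.sin_sq_add_cos_sq φ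
    have h4 : (2 * Real.sin φ) ^ 2 < 1 := (sq_lt_one_iff_abs_lt_one (2 * Real.sin φ)).mpr h
    nlinarith
  gcongr

end Pool.Agent.helper32.Billiard
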