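import Pool.Agent.helper32.Billiard.Deriv
import Pool.Agent.helper32.Billiard.Choice

/-!
# The invariant measure on the annular table
-/

set_option autoImplicit false

open Set Filter Topology MeasureTheory Complex
open scoped ENNReal

namespace Pool.Agent.helper32.Billiard

/-- the Borel σ-algebra of the circle -/
noncomputable instance instMeasurableSpaceCircle : MeasurableSpace Circle := borel Circle

instance instBorelSpaceCircle : BorelSpace Circle := ⟨rfl⟩

/-- normalised Haar measure of the circle -/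
noncomputable def U : Measure Circle :=
  Measure.haarMeasure (⊤ : TopologicalSpace.PositiveCompacts Circle)

instance : IsProbabilityMeasure U := ⟨by
  rw [U]; exact Measure.haarMeasure_self⟩

instance : U.IsMulLeftInvariant := by rw [U]; infer_instance

lemma exists_seq : ∃ ψ : ℕ → ℝ, ∀ k, ψ k ∈ Ioo 0 (Real.pi / 2) ∧
    Real.cos (ψ k) < Real.exp (-(4:ℝ) ^ k) ∧
    ∀ n : ℕ, 0 < n → exp ((ψ k - φof (ψ k) : ℝ) * I) ^ n ≠ 1 := by
  choose ψ h1 h2 h3 using fun k : ℕ => exists_angle (Real.exp (-(4:ℝ) ^ k)) (Real.exp_pos _)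
  exact ⟨ψ, fun k => ⟨h1 k, h2 k, h3 k⟩⟩

/-- the inner angles -/
noncomputable def ψs : ℕ → ℝ := exists_seq.choose

lemma ψs_mem (k : ℕ) : ψs k ∈ Ioo 0 (Real.pi / 2) := (exists_seq.choose_spec k).1

lemma cos_ψs (k : ℕ) : Real.cos (ψs k) < Real.exp (-(4:ℝ) ^ k) := (exists_seq.choose_spec k).2.1

lemma cos_ψs_pos (k : ℕ) : 0 < Real.cos (ψs k) :=
  Real.cos_pos_of_mem_Ioo ⟨by linarith [(ψs_mem k).1, Real.pi_pos], (ψs_mem k).2⟩

lemma cos_φs_pos (k : ℕ) : 0 < Real.cos (φof (ψs k)) := Real.cos_pos_of_mem_Ioo (φof_mem _)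

/-- the rotation numbers, as elements of the circle -/
noncomputable def θ (k : ℕ) : Circle := Circle.exp (ψs k - φof (ψs k))

lemma coe_θ (k : ℕ) : (θ k : ℂ) = exp ((ψs k - φof (ψs k) : ℝ) * I) := by
  rw [θ, Circle.coe_exp]

lemma θ_pow_ne_one (k : ℕ) {n : ℕ} (hn : 0 < n) : θ k ^ n ≠ 1 := by
  intro h
  apply (exists_seq.choose_spec k).2.2 n hn
  have := congrArg (fun u : Circle => (u : ℂ)) h
  simp only [Circle.coe_pow, Circle.coe_one, coe_θ] at this
  exact this

/-- the orbit circles -/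
noncomputable def e (p : ℕ × Bool) (u : Circle) : ℂ × ℂ :=
  if p.2 then c1 (-ψs p.1) u else c0 (φof (ψs p.1)) u

lemma norm_circle (u : Circle) : ‖(u : ℂ)‖ = 1 := Circle.norm_coe u

lemma T_e (k : ℕ) (b : Bool) (u : Circle) : annulus.T (e (k, b) u) = e (k, !b) (u * θ k) := by
  have hs := sin_φof (ψs k)
  cases b
  · simp only [e, Bool.false_eq_true, if_false, Bool.not_false, if_true]
    rw [T_c0 _ _ _ (norm_circle u) (cos_φs_pos k) (cos_ψs_pos k) hs, Circle.coe_mul, coe_θ]
  · simp only [e, Bool.false_eq_true, if_false, Bool.not_true, if_true]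
    rw [T_c1 (-ψs k) (φof (ψs k)) _ (norm_circle u) (by rw [Real.cos_neg]; exact cos_ψs_pos k)
      (cos_φs_pos k) (by rw [hs, Real.sin_neg, neg_neg]), Circle.coe_mul, coe_θ]
    congr 3
    push_cast; ring

lemma e_eq {k : ℕ} {b b' : Bool} {u u' : Circle} (h : e (k, b) u = e (k, b') u') :
    b = b' ∧ u = u' := by
  have hu := norm_circle u
  have hu' := norm_circle u'
  cases b <;> cases b' <;> simp only [e, Bool.false_eq_true, if_false, if_true] at h
  · exact ⟨rfl, Circle.ext (c0_inj hu h).1⟩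
  · exact (c0_ne_c1 hu hu' h).elim
  · exact (c0_ne_c1 hu' hu h.symm).elim
  · exact ⟨rfl, Circle.ext (c1_inj hu h).1⟩

lemma T_iterate_e (k : ℕ) (b : Bool) (u : Circle) (n : ℕ) :
    ∃ b', annulus.T^[n] (e (k, b) u) = e (k, b') (u * θ k ^ n) := by
  induction n with
  | zero => exact ⟨b, by simp⟩
  | succ n ih =>
    obtain ⟨b', hb'⟩ := ih
    refine ⟨!b', ?_⟩
    rw [Function.iterate_succ_apply', hb', T_e, pow_succ, mul_assoc]

lemma e_not_periodic (p : ℕ × Bool) (u : Circle) :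
    e p u ∉ {x | ∃ k : ℕ, 0 < k ∧ annulus.T^[k] x = x} := by
  rintro ⟨n, hn, h⟩
  obtain ⟨b', hb'⟩ := T_iterate_e p.1 p.2 u n
  rw [hb'] at h
  have h2 := (e_eq (k := p.1) (b := b') (b' := p.2) h).2
  exact θ_pow_ne_one p.1 hn (by simpa using h2)

lemma continuous_e (p : ℕ × Bool) : Continuous (e p) := by
  obtain ⟨k, b⟩ := p
  have h : Continuous (fun u : Circle => (u : ℂ)) := continuous_subtype_val
  cases b
  · have h2 : Continuous (fun z : ℂ => c0 (φof (ψs k)) z) := by
      unfold c0; fun_prop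
    exact h2.comp h
  · have h2 : Continuous (fun z : ℂ => c1 (-ψs k) z) := by
      unfold c1; fun_prop
    exact h2.comp h

lemma measurable_e (p : ℕ × Bool) : Measurable (e p) := (continuous_e p).measurable

lemma measurableSet_range_e (p : ℕ × Bool) : MeasurableSet (range (e p)) :=
  (isCompact_range (continuous_e p)).isClosed.measurableSet

/-- the pieces of the measure -/
noncomputable def m (p : ℕ × Bool) : Measure (ℂ × ℂ) := U.map (e p)

instance (p : ℕ × Bool) : IsProbabilityMeasure (m p) :=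
  Measure.isProbabilityMeasure_map (measurable_e p).aemeasurable

lemma ae_m {Q : ℂ × ℂ → Prop} (p : ℕ × Bool) (h : ∀ u, Q (e p u)) : ∀ᵐ x ∂(m p), Q x := by
  have := ae_map_mem_range (e p) (measurableSet_range_e p) U
  filter_upwards [this] with x hx
  obtain ⟨u, rfl⟩ := hx
  exact h u

lemma aemeasurable_T_m (p : ℕ × Bool) : AEMeasurable annulus.T (m p) := by
  obtain ⟨k, b⟩ := p
  cases b
  · refine ⟨fun x => c1 (-ψs k) (x.1 * (θ k : ℂ)), ?_, ae_m _ ?_⟩
    · have : Continuous (fun x : ℂ × ℂ => c1 (-ψs k) (x.1 * (θ k : ℂ))) := by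
        simp only [c1]; fun_prop
      exact this.measurable
    · intro u
      rw [T_e]
      simp [e, c0]
  · refine ⟨fun x => c0 (φof (ψs k)) (2 * x.1 * (θ k : ℂ)), ?_, ae_m _ ?_⟩
    · have : Continuous (fun x : ℂ × ℂ => c0 (φof (ψs k)) (2 * x.1 * (θ k : ℂ))) := by
        simp only [c0]; fun_prop
      exact this.measurable
    · intro u
      rw [T_e]
      simp only [e, c1, Bool.not_true, Bool.false_eq_true, if_false, if_true, Circle.coe_mul]
      congr 2
      ring

lemma map_T_m (k : ℕ) (b : Bool) : (m (k, b)).map annulus.T = m (k, !b) := by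
  have h1 : annulus.T ∘ e (k, b) = e (k, !b) ∘ (fun u => u * θ k) := by
    funext u
    simp only [Function.comp_apply]
    exact T_e k b u
  have h2 : AEMeasurable annulus.T (U.map (e (k, b))) := aemeasurable_T_m (k, b)
  rw [m, h2.map_map_of_aemeasurable (measurable_e _).aemeasurable, h1,
    ← Measure.map_map (measurable_e _) (measurable_mul_const _), map_mul_right_eq_self]
  rfl

/-- the weights -/
noncomputable def wt (p : ℕ × Bool) : ℝ≥0∞ := 2⁻¹ ^ (p.1 + 2)

/-- the measure -/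
noncomputable def mix : Measure (ℂ × ℂ) := Measure.sum fun p => wt p • m p

lemma ae_mix {Q : ℂ × ℂ → Prop} (h : ∀ p u, Q (e p u)) : ∀ᵐ x ∂mix, Q x := by
  rw [mix, Measure.ae_sum_iff]
  intro p
  exact Measure.ae_smul_measure (ae_m p (h p)) _

lemma tsum_wt : ∑' p, wt p = 1 := by
  have h1 : ∑' p : ℕ × Bool, wt p = ∑' k : ℕ, (2⁻¹ : ℝ≥0∞) ^ (k + 1) := by
    rw [ENNReal.tsum_prod']
    congr 1
    funext k
    rw [tsum_bool]
    simp only [wt]
    rw [pow_succ _ (k + 1), ← mul_add, ENNReal.inv_two_add_inv_two, mul_one]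
  rw [h1, ENNReal.tsum_geometric_add_one, ENNReal.one_sub_inv_two, inv_inv]
  exact ENNReal.inv_mul_cancel (by norm_num) (by norm_num)

instance : IsProbabilityMeasure mix := ⟨by
  rw [mix, Measure.sum_apply _ MeasurableSet.univ]
  simp only [Measure.smul_apply, measure_univ, smul_eq_mul, mul_one]
  exact tsum_wt⟩

lemma aemeasurable_T_mix : AEMeasurable annulus.T mix := by
  rw [mix, aemeasurable_sum_measure_iff]
  intro p
  exact (aemeasurable_T_m p).smul_measure _

lemma map_T_mix : mix.map annulus.T = mix := by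
  have h := aemeasurable_T_mix
  rw [mix] at h ⊢
  rw [Measure.map_sum h]
  ext s hs
  rw [Measure.sum_apply _ hs, Measure.sum_apply _ hs]
  let σ : ℕ × Bool ≃ ℕ × Bool := (Equiv.refl ℕ).prodCongr (Equiv.boolNot)
  rw [← Equiv.tsum_eq σ]
  congr 1
  funext p
  obtain ⟨k, b⟩ := p
  have h1 : σ (k, b) = (k, !b) := rfl
  rw [h1, Measure.map_smul, map_T_m, Bool.not_not]
  rfl

/-- bi-infinite orbit of `e (k, b) u` -/
noncomputable def orb (k : ℕ) (b : Bool) (u : Circle) (n : ℤ) : ℂ × ℂ :=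
  e (k, if Even n then b else !b) (u * θ k ^ n)

lemma T_orb (k : ℕ) (b : Bool) (u : Circle) (n : ℤ) :
    annulus.T (orb k b u n) = orb k b u (n + 1) := by
  rw [orb, orb, T_e, mul_assoc, zpow_add_one]
  by_cases h : Even n
  · have h' : ¬ Even (n + 1) := by
      rw [Int.even_add_one, not_not]; exact h
    rw [if_pos h, if_neg h']
  · have h' : Even (n + 1) := by
      rw [Int.even_add_one]; exact h
    rw [if_neg h, if_pos h', Bool.not_not]

lemma e_mem_M (p : ℕ × Bool) (u : Circle) : e p u ∈ annulus.M := by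
  obtain ⟨k, b⟩ := p
  have h1 := ψs_mem k
  have h2 := Real.pi_pos
  cases b
  · simp only [e, Bool.false_eq_true, if_false]
    exact c0_mem_M (norm_circle u) (Ioo_subset_Icc_self (φof_mem _))
  · simp only [e, if_true]
    exact c1_mem_M (norm_circle u) ⟨by linarith [h1.2], by linarith [h1.1]⟩

lemma e_notMem_S (p : ℕ × Bool) (u : Circle) : e p u ∉ annulus.S := by
  obtain ⟨k, b⟩ := p
  cases b
  · simp only [e, Bool.false_eq_true, if_false]
    exact c0_notMem_S (norm_circle u) (cos_φs_pos k)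
  · simp only [e, if_true]
    exact c1_notMem_S (norm_circle u) (by rw [Real.cos_neg]; exact cos_ψs_pos k)

lemma isInvariantProbability_mix : annulus.IsInvariantProbability mix where
  isProbabilityMeasure := inferInstance
  ae_mem := ae_mix e_mem_M
  aemeasurable := aemeasurable_T_mix
  map_eq := map_T_mix
  ae_orbit := ae_mix fun p u =>
    ⟨orb p.1 p.2 u, by simp [orb], fun n => ⟨T_orb _ _ _ _, e_mem_M _ _, e_notMem_S _ _⟩⟩

lemma isNonPeriodic_mix : annulus.IsNonPeriodic mix := by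
  have h := ae_mix (Q := fun x => x ∉ {x | ∃ k : ℕ, 0 < k ∧ annulus.T^[k] x = x}) e_not_periodic
  rw [ae_iff] at h
  unfold Table.IsNonPeriodic
  simpa using h

lemma ψof_φof (k : ℕ) : ψof (φof (ψs k)) = ψs k := by
  have h1 := ψs_mem k
  rw [ψof, sin_φof, show 2 * (Real.sin (ψs k) / 2) = Real.sin (ψs k) by ring,
    Real.arcsin_sin (by linarith [h1.1, Real.pi_pos]) h1.2.le]

lemma lintegral_mix {σ : ℝ} {f : ℂ × ℂ → ℂ × ℂ} (hf : GoodMap σ f) :
    ∫⁻ x, ENNReal.ofReal (Real.posLog ‖annulus.coordDeriv f x‖) ∂mix = ⊤ := by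
  have hk : ∀ k : ℕ, (2 : ℝ≥0∞) ^ k ≤
      4 * ∫⁻ x, ENNReal.ofReal (Real.posLog ‖annulus.coordDeriv f x‖) ∂mix := by
    intro k
    have h1 : ∀ᵐ x ∂(m (k, false)), (4 : ℝ≥0∞) ^ k ≤
        ENNReal.ofReal (Real.posLog ‖annulus.coordDeriv f x‖) := by
      apply ae_m
      intro u
      simp only [e, Bool.false_eq_true, if_false]
      have hs : |2 * Real.sin (φof (ψs k))| < 1 := by
        rw [sin_φof, show 2 * (Real.sin (ψs k) / 2) = Real.sin (ψs k) by ring]
        rw [← sq_lt_one_iff_abs_lt_one]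
        have := Real.sin_sq_add_cos_sq (ψs k)
        have := cos_ψs_pos k
        nlinarith
      have h2 := le_norm_coordDeriv hf (norm_circle u) (φof_mem (ψs k)) hs
      rw [ψof_φof] at h2
      have h3 : Real.exp ((4:ℝ) ^ k) ≤ ‖annulus.coordDeriv f (c0 (φof (ψs k)) u)‖ := by
        refine le_trans ?_ h2
        rw [le_div_iff₀ (cos_ψs_pos k)]
        have := (cos_ψs k).le
        calc Real.exp ((4:ℝ) ^ k) * Real.cos (ψs k)
            ≤ Real.exp ((4:ℝ) ^ k) * Real.exp (-(4:ℝ) ^ k) := by gcongr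
          _ = 1 := by rw [← Real.exp_add]; simp
      have h4 : (4:ℝ) ^ k ≤ Real.posLog ‖annulus.coordDeriv f (c0 (φof (ψs k)) u)‖ := by
        calc (4:ℝ) ^ k = Real.log (Real.exp ((4:ℝ) ^ k)) := (Real.log_exp _).symm
          _ ≤ Real.log ‖annulus.coordDeriv f (c0 (φof (ψs k)) u)‖ :=
            Real.log_le_log (Real.exp_pos _) h3
          _ ≤ _ := le_max_right _ _
      calc (4 : ℝ≥0∞) ^ k = ENNReal.ofReal ((4:ℝ) ^ k) := by
            rw [ENNReal.ofReal_pow (by norm_num)]; norm_num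
        _ ≤ _ := ENNReal.ofReal_le_ofReal h4
    have h2 : (4 : ℝ≥0∞) ^ k ≤
        ∫⁻ x, ENNReal.ofReal (Real.posLog ‖annulus.coordDeriv f x‖) ∂(m (k, false)) := by
      calc (4 : ℝ≥0∞) ^ k = ∫⁻ x, (4 : ℝ≥0∞) ^ k ∂(m (k, false)) := by
            rw [lintegral_const, measure_univ, mul_one]
        _ ≤ _ := lintegral_mono_ae h1
    have h3 : wt (k, false) * ∫⁻ x, ENNReal.ofReal (Real.posLog ‖annulus.coordDeriv f x‖) ∂(m (k, false))
        ≤ ∫⁻ x, ENNReal.ofReal (Real.posLog ‖annulus.coordDeriv f x‖) ∂mix := by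
      rw [mix, lintegral_sum_measure]
      refine le_trans ?_ (ENNReal.le_tsum (k, false))
      rw [lintegral_smul_measure]
      rfl
    calc (2 : ℝ≥0∞) ^ k = 4 * (2⁻¹ ^ (k + 2) * 4 ^ k) := by
          rw [show (4 : ℝ≥0∞) = 2 ^ 2 by norm_num, ← pow_mul, ← ENNReal.inv_pow]
          have h5 : (2 : ℝ≥0∞) ^ (k + 2) ≠ 0 := by positivity
          have h6 : (2 : ℝ≥0∞) ^ (k + 2) ≠ ⊤ := by finiteness
          calc (2 : ℝ≥0∞) ^ k = 2 ^ k * 1 := by rw [mul_one]
            _ = 2 ^ k * ((2 ^ (k + 2))⁻¹ * 2 ^ (k + 2)) := by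
              rw [ENNReal.inv_mul_cancel h5 h6]
            _ = 2 ^ 2 * ((2 ^ (k + 2))⁻¹ * 2 ^ (2 * k)) := by ring
      _ ≤ _ := by
          gcongr
          refine le_trans ?_ h3
          rw [wt]
          gcongr
  by_contra hcon
  have hlt : 4 * ∫⁻ x, ENNReal.ofReal (Real.posLog ‖annulus.coordDeriv f x‖) ∂mix < ⊤ :=
    ENNReal.mul_lt_top (by norm_num) (lt_top_iff_ne_top.mpr hcon)
  have htend : Tendsto (fun k : ℕ => (2 : ℝ≥0∞) ^ k) atTop (𝓝 ⊤) :=
    ENNReal.tendsto_pow_atTop_nhds_top_iff.mpr (by norm_num)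
  have := le_of_tendsto' htend hk
  exact absurd hlt (not_lt.mpr this)

end Pool.Agent.helper32.Billiard
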