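import Pool.Agent.helper32.Billiard.Annulus

/-!
# The billiard map of the annular table near trajectories that hit both circles
-/

set_option autoImplicit false

open Set Filter Topology MeasureTheory Complex

namespace Pool.Agent.helper32.Billiard

/-- outgoing vectors on the outer circle -/
noncomputable def c0 (φ : ℝ) (z : ℂ) : ℂ × ℂ := (z, -exp (-(φ * I)) * z)

/-- outgoing vectors on the inner circle -/
noncomputable def c1 (χ : ℝ) (w : ℂ) : ℂ × ℂ := (w / 2, exp (-(χ * I)) * w)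

lemma chart_zero (a : ℝ × ℝ) : annulus.chart (0 : Fin 2) a = c0 a.2 (exp (a.1 * I)) := by
  have h : annulus.γ = γA := rfl
  have e1 : γA 0 a.1 = exp (a.1 * I) := by simp [γA, R, κ]
  have e2 : exp (-(a.2 * I)) = Real.cos a.2 - Real.sin a.2 * I := by
    rw [show (-(a.2 * I) : ℂ) = ((-a.2 : ℝ) : ℂ) * I by push_cast; ring, exp_mul_I,
      ← Complex.ofReal_cos, ← Complex.ofReal_sin, Real.cos_neg, Real.sin_neg]
    push_cast; ring
  simp only [Table.chart, c0, h, deriv_γA, e1, e2, κ_zero, Complex.ofReal_one]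
  ext1
  · rfl
  · simp only
    linear_combination (((Real.cos a.2 : ℝ) : ℂ) * exp (a.1 * I) : ℂ) * I_mul_I

lemma chart_one (a : ℝ × ℝ) : annulus.chart (1 : Fin 2) a = c1 a.2 (exp (-(2 * a.1 * I))) := by
  have h : annulus.γ = γA := rfl
  have e1 : γA 1 a.1 = exp (-(2 * a.1 * I)) / 2 := by
    simp [γA, R, κ]; ring
  have e2 : exp (-(a.2 * I)) = Real.cos a.2 - Real.sin a.2 * I := by
    rw [show (-(a.2 * I) : ℂ) = ((-a.2 : ℝ) : ℂ) * I by push_cast; ring, exp_mul_I,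
      ← Complex.ofReal_cos, ← Complex.ofReal_sin, Real.cos_neg, Real.sin_neg]
    push_cast; ring
  simp only [Table.chart, c1, h, deriv_γA, e1, e2, κ_one, Complex.ofReal_neg, Complex.ofReal_ofNat]
  ext1
  · rfl
  · simp only
    linear_combination (-((Real.cos a.2 : ℝ) : ℂ) * exp (-(2 * a.1 * I)) : ℂ) * I_mul_I

lemma mem_frontier (p : ℂ) : p ∈ frontier annulus.Q ↔ ‖p‖ = 1 ∨ ‖p‖ = 1/2 := by
  have h : annulus.Q = QA := rfl
  rw [h, frontier, isClosed_QA.closure_eq, interior_QA]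
  simp only [Set.mem_sdiff, mem_ofPred_eq, QA]
  constructor
  · rintro ⟨⟨h1, h2⟩, h3⟩
    by_cases h4 : 1/2 < ‖p‖
    · left
      by_contra h5
      exact h3 ⟨h4, lt_of_le_of_ne h2 h5⟩
    · right
      linarith
  · rintro (h | h) <;> rw [h] <;> norm_num

lemma tangent_sq (p : ℂ) (hp : ‖p‖ = 1 ∨ ‖p‖ = 1/2) :
    annulus.tangent p ^ 2 = -(p ^ 2 / (‖p‖ ^ 2 : ℝ)) := by
  have hex : ∃ a : Fin annulus.n × ℝ, a.2 ∈ Icc 0 (annulus.len a.1) ∧ annulus.γ a.1 a.2 = p := by
    rcases hp with hp | hp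
    · obtain ⟨s, hs, h⟩ := exists_γA 0 p (by rw [hp, R_zero])
      exact ⟨((0 : Fin 2), s), Ico_subset_Icc_self hs, h⟩
    · obtain ⟨s, hs, h⟩ := exists_γA 1 p (by rw [hp, R_one])
      exact ⟨((1 : Fin 2), s), Ico_subset_Icc_self hs, h⟩
  rw [Table.tangent, dif_pos hex]
  have hsp := hex.choose_spec.2
  set a := hex.choose with ha
  have hγ : annulus.γ = γA := rfl
  rw [hγ] at hsp ⊢
  rw [deriv_γA, hsp]
  have hn : ‖p‖ = R a.1 := by rw [← hsp]; exact norm_γA _ _
  have hR := R_pos a.1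
  have h2 : (κ a.1) ^ 2 = 1 / (R a.1) ^ 2 := by
    have := abs_κ a.1
    rw [eq_div_iff (by positivity), ← sq_abs, ← mul_pow, mul_comm, this, one_pow]
  have h3 : ((κ a.1 : ℝ) : ℂ) ^ 2 = 1 / ((R a.1 : ℝ) : ℂ) ^ 2 := by exact_mod_cast h2
  rw [mul_pow, mul_pow, I_sq, h3, hn]
  push_cast
  ring

lemma reflect_eq (p v : ℂ) (hp : ‖p‖ = 1 ∨ ‖p‖ = 1/2) :
    annulus.reflect p v = -(p ^ 2 / (‖p‖ ^ 2 : ℝ)) * (starRingEnd ℂ) v := by
  rw [Table.reflect, tangent_sq p hp]

lemma normsq_lem (a t φ : ℝ) :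
    ‖(a : ℂ) + t * exp (φ * I)‖ ^ 2 = a ^ 2 + 2 * a * t * Real.cos φ + t ^ 2 := by
  rw [Complex.sq_norm, Complex.normSq_apply, exp_mul_I, ← Complex.ofReal_cos,
    ← Complex.ofReal_sin]
  have h1 : ((a : ℂ) + t * (((Real.cos φ : ℝ) : ℂ) + ((Real.sin φ : ℝ) : ℂ) * I)).re
      = a + t * Real.cos φ := by
    simp [-Complex.ofReal_cos, -Complex.ofReal_sin]
  have h2 : ((a : ℂ) + t * (((Real.cos φ : ℝ) : ℂ) + ((Real.sin φ : ℝ) : ℂ) * I)).im
      = t * Real.sin φ := by
    simp [-Complex.ofReal_cos, -Complex.ofReal_sin]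
  rw [h1, h2]
  linear_combination (t ^ 2) * (Real.sin_sq_add_cos_sq φ)

lemma norm_exp_I (x : ℝ) : ‖exp (x * I)‖ = 1 := Complex.norm_exp_ofReal_mul_I x

lemma conj_exp_I (x : ℝ) : (starRingEnd ℂ) (exp (x * I)) = exp (-(x * I)) := by
  rw [← Complex.exp_conj]
  simp

/-- From the outer circle to the inner circle. -/
lemma T_c0 (φ ψ : ℝ) (z : ℂ) (hz : ‖z‖ = 1) (hφ : 0 < Real.cos φ) (hψ : 0 < Real.cos ψ)
    (h : Real.sin φ = Real.sin ψ / 2) :
    annulus.T (c0 φ z) = c1 (-ψ) (z * exp ((ψ - φ : ℝ) * I)) := by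
  have hcs := Real.sin_sq_add_cos_sq φ
  have hcs' := Real.sin_sq_add_cos_sq ψ
  set τ : ℝ := Real.cos φ - Real.cos ψ / 2 with hτ
  have hk : Real.cos φ ^ 2 = 3 / 4 + Real.cos ψ ^ 2 / 4 := by
    rw [h] at hcs
    linear_combination hcs - hcs' / 4
  have hlt : Real.cos ψ / 2 < Real.cos φ := by
    by_contra hcon
    push Not at hcon
    nlinarith
  -- the explicit position
  have hpos : (1 : ℂ) - τ * exp (-(φ * I)) = exp ((ψ - φ : ℝ) * I) / 2 := by
    have e2 : exp (-(φ * I)) = Real.cos φ - Real.sin φ * I := by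
      rw [show (-(φ * I) : ℂ) = ((-φ : ℝ) : ℂ) * I by push_cast; ring, exp_mul_I,
        ← Complex.ofReal_cos, ← Complex.ofReal_sin, Real.cos_neg, Real.sin_neg]
      push_cast; ring
    have e3 : exp ((ψ - φ : ℝ) * I) = (Real.cos ψ + Real.sin ψ * I) * (Real.cos φ - Real.sin φ * I) := by
      rw [← e2, show ((ψ - φ : ℝ) : ℂ) * I = ψ * I + -(φ * I) by push_cast; ring, Complex.exp_add,
        exp_mul_I, ← Complex.ofReal_cos, ← Complex.ofReal_sin]
    rw [e2, e3, hτ]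
    have h' : ((Real.sin φ : ℝ) : ℂ) = (Real.sin ψ : ℝ) / 2 := by rw [h]; push_cast; ring
    have hcs2 : ((Real.sin φ : ℝ) : ℂ) ^ 2 + ((Real.cos φ : ℝ) : ℂ) ^ 2 = 1 := by
      exact_mod_cast hcs
    have h'' : ((Real.sin ψ : ℝ) : ℂ) = 2 * (Real.sin φ : ℝ) := by rw [h']; ring
    rw [h'', Complex.ofReal_sub, Complex.ofReal_div, Complex.ofReal_ofNat]
    linear_combination (-1 : ℂ) * hcs2 + (((Real.sin φ : ℝ) : ℂ) ^ 2) * I_mul_I
  have hfac : ∀ t : ℝ, (c0 φ z).1 + t * (c0 φ z).2 = -(((-1 : ℝ) : ℂ) + t * exp ((-φ : ℝ) * I)) * z := by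
    intro t
    simp only [c0]
    push_cast
    rw [show (-φ : ℂ) * I = -(φ * I) by ring]
    ring
  have hnorm : ∀ t : ℝ, ‖(c0 φ z).1 + t * (c0 φ z).2‖ ^ 2 = 1 - 2 * t * Real.cos φ + t ^ 2 := by
    intro t
    rw [hfac, norm_mul, norm_neg, hz, mul_one, normsq_lem, Real.cos_neg]
    ring
  have htime : annulus.nextTime (c0 φ z) = τ := by
    apply IsLeast.csInf_eq
    constructor
    · refine ⟨by rw [hτ]; linarith, ?_⟩
      rw [mem_frontier]
      right
      have h1 := hnorm τ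
      have h2 : ‖(c0 φ z).1 + τ * (c0 φ z).2‖ ^ 2 = (1/2) ^ 2 := by
        rw [h1, hτ]
        linear_combination (-1 : ℝ) * hk
      exact (pow_left_inj₀ (norm_nonneg _) (by norm_num) two_ne_zero).mp h2
    · rintro t ⟨ht0, ht⟩
      rw [mem_frontier] at ht
      have h1 := hnorm t
      rcases ht with ht | ht
      · rw [ht] at h1
        have h2 : t * (t - 2 * Real.cos φ) = 0 := by linear_combination -h1
        rcases mul_eq_zero.mp h2 with h3 | h3
        · linarith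
        · rw [hτ]; linarith
      · rw [ht] at h1
        have h2 : (t - (Real.cos φ - Real.cos ψ / 2)) * (t - (Real.cos φ + Real.cos ψ / 2)) = 0 := by
          linear_combination -h1 + hk
        rcases mul_eq_zero.mp h2 with h3 | h3
        · linarith
        · rw [hτ]; linarith
  have hnext : annulus.nextPoint (c0 φ z) = z * exp ((ψ - φ : ℝ) * I) / 2 := by
    rw [Table.nextPoint, htime]
    simp only [c0]
    linear_combination z * hpos
  have hw : ‖z * exp ((ψ - φ : ℝ) * I)‖ = 1 := by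
    rw [norm_mul, hz, norm_exp_I, one_mul]
  set w : ℂ := z * exp ((ψ - φ : ℝ) * I) with hwdef
  have hnw : ‖w / 2‖ = 1/2 := by rw [norm_div, hw]; norm_num
  rw [Table.T, hnext, reflect_eq _ _ (Or.inr hnw), hnw]
  simp only [c0, c1]
  ext1
  · rfl
  · simp only
    have hzz : z * (starRingEnd ℂ) z = 1 := by
      rw [Complex.mul_conj, Complex.normSq_eq_norm_sq, hz]; norm_num
    have hce : (starRingEnd ℂ) (exp (-(φ * I))) = exp (φ * I) := by
      rw [← Complex.exp_conj]; simp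
    rw [map_mul, map_neg, hce]
    have h5 : exp (-((-ψ : ℝ) * I)) = exp ((ψ - φ : ℝ) * I) * exp (φ * I) := by
      rw [← Complex.exp_add]; congr 1; push_cast; ring
    rw [h5]
    push_cast
    rw [hwdef]
    push_cast
    linear_combination (z * exp ((ψ - φ : ℂ) * I) ^ 2 * exp (φ * I) : ℂ) * hzz

/-- From the inner circle to the outer circle. -/
lemma T_c1 (χ φ : ℝ) (w : ℂ) (hw : ‖w‖ = 1) (hχ : 0 < Real.cos χ) (hφ : 0 < Real.cos φ)
    (h : Real.sin φ = - Real.sin χ / 2) :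
    annulus.T (c1 χ w) = c0 φ (w * exp ((-(χ + φ) : ℝ) * I)) := by
  have hcs := Real.sin_sq_add_cos_sq φ
  have hcs' := Real.sin_sq_add_cos_sq χ
  set τ : ℝ := Real.cos φ - Real.cos χ / 2 with hτ
  have hk : Real.cos φ ^ 2 = 3 / 4 + Real.cos χ ^ 2 / 4 := by
    rw [h] at hcs
    linear_combination hcs - hcs' / 4
  have hlt : Real.cos χ / 2 < Real.cos φ := by
    by_contra hcon
    push Not at hcon
    nlinarith
  have hpos : (1 / 2 : ℂ) + τ * exp (-(χ * I)) = exp ((-(χ + φ) : ℝ) * I) := by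
    have e2 : exp (-(χ * I)) = Real.cos χ - Real.sin χ * I := by
      rw [show (-(χ * I) : ℂ) = ((-χ : ℝ) : ℂ) * I by push_cast; ring, exp_mul_I,
        ← Complex.ofReal_cos, ← Complex.ofReal_sin, Real.cos_neg, Real.sin_neg]
      push_cast; ring
    have e2' : exp (-(φ * I)) = Real.cos φ - Real.sin φ * I := by
      rw [show (-(φ * I) : ℂ) = ((-φ : ℝ) : ℂ) * I by push_cast; ring, exp_mul_I,
        ← Complex.ofReal_cos, ← Complex.ofReal_sin, Real.cos_neg, Real.sin_neg]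
      push_cast; ring
    have e3 : exp ((-(χ + φ) : ℝ) * I) = (Real.cos χ - Real.sin χ * I) * (Real.cos φ - Real.sin φ * I) := by
      rw [← e2, ← e2', ← Complex.exp_add]; congr 1; push_cast; ring
    rw [e2, e3, hτ]
    have h' : ((Real.sin φ : ℝ) : ℂ) = - (Real.sin χ : ℝ) / 2 := by rw [h]; push_cast; ring
    have hcs2 : ((Real.sin χ : ℝ) : ℂ) ^ 2 + ((Real.cos χ : ℝ) : ℂ) ^ 2 = 1 := by
      exact_mod_cast hcs'
    rw [h', Complex.ofReal_sub, Complex.ofReal_div, Complex.ofReal_ofNat]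
    linear_combination (-1 / 2 : ℂ) * hcs2 + ((((Real.sin χ : ℝ) : ℂ) ^ 2) / 2) * I_mul_I
  have hfac : ∀ t : ℝ, (c1 χ w).1 + t * (c1 χ w).2 = (((1 / 2 : ℝ) : ℂ) + t * exp ((-χ : ℝ) * I)) * w := by
    intro t
    simp only [c1]
    push_cast
    rw [show (-χ : ℂ) * I = -(χ * I) by ring]
    ring
  have hnorm : ∀ t : ℝ, ‖(c1 χ w).1 + t * (c1 χ w).2‖ ^ 2 = 1 / 4 + t * Real.cos χ + t ^ 2 := by
    intro t
    rw [hfac, norm_mul, hw, mul_one, normsq_lem, Real.cos_neg]
    ring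
  have htime : annulus.nextTime (c1 χ w) = τ := by
    apply IsLeast.csInf_eq
    constructor
    · refine ⟨by rw [hτ]; linarith, ?_⟩
      rw [mem_frontier]
      left
      have h1 := hnorm τ
      have h2 : ‖(c1 χ w).1 + τ * (c1 χ w).2‖ ^ 2 = 1 ^ 2 := by
        rw [h1, hτ]
        linear_combination hk
      exact (pow_left_inj₀ (norm_nonneg _) (by norm_num) two_ne_zero).mp h2
    · rintro t ⟨ht0, ht⟩
      rw [mem_frontier] at ht
      have h1 := hnorm t
      rcases ht with ht | ht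
      · rw [ht] at h1
        have h2 : (t - (Real.cos φ - Real.cos χ / 2)) * (t + (Real.cos φ + Real.cos χ / 2)) = 0 := by
          linear_combination -h1 - hk
        rcases mul_eq_zero.mp h2 with h3 | h3
        · linarith
        · linarith
      · rw [ht] at h1
        nlinarith
  have hnext : annulus.nextPoint (c1 χ w) = w * exp ((-(χ + φ) : ℝ) * I) := by
    rw [Table.nextPoint, htime]
    simp only [c1]
    linear_combination w * hpos
  have hz : ‖w * exp ((-(χ + φ) : ℝ) * I)‖ = 1 := by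
    rw [norm_mul, hw, norm_exp_I, one_mul]
  set z : ℂ := w * exp ((-(χ + φ) : ℝ) * I) with hzdef
  rw [Table.T, hnext, reflect_eq _ _ (Or.inl hz), hz]
  simp only [c0, c1]
  ext1
  · rfl
  · simp only
    have hww : w * (starRingEnd ℂ) w = 1 := by
      rw [Complex.mul_conj, Complex.normSq_eq_norm_sq, hw]; norm_num
    have hce : (starRingEnd ℂ) (exp (-(χ * I))) = exp (χ * I) := by
      rw [← Complex.exp_conj]; simp
    rw [map_mul, hce]
    have h5 : exp (-(φ * I)) = exp ((-(χ + φ) : ℝ) * I) * exp (χ * I) := by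
      rw [← Complex.exp_add]; congr 1; push_cast; ring
    rw [h5]
    rw [hzdef]
    push_cast
    linear_combination (-w * exp (-(χ + φ : ℂ) * I) ^ 2 * exp (χ * I) : ℂ) * hww

end Pool.Agent.helper32.Billiard
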